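import Pool.Agent.H81.WK.Union

/-! The structure of a failing cell. -/

set_option linter.unusedSectionVars false

open Module Submodule H15

namespace H81.WK

variable {ι : Type*} [Fintype ι] {E : Type*} [AddCommGroup E] [Module ℝ E]
  [FiniteDimensional ℝ E]

/-- all partitions of the zero set may be added, so one of the union conditions fails. -/
theorem exists_fail {w : ι → E} {κ : ℕ} (hb : Bdd w κ) {P N : Set ι} (h : SVec w P N)
    (hsp : sp w (P ∪ N) = ⊤) :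
    ∃ E' : Set ι, Disjoint E' (P ∪ N) ∧
      finrank ℝ (sp w (P ∪ E')) + finrank ℝ (sp w (N ∪ E')) +
        ((P ∪ N)ᶜ \ E').ncard ≤ κ + finrank ℝ E := by
  classical
  by_contra hcon
  push Not at hcon
  obtain ⟨X, Y, hd, hu, ht⟩ := union_rank w (sp w P) (sp w N) ((P ∪ N)ᶜ).toFinset
    (κ + finrank ℝ E + 1) (by
      intro X hX
      have hXd : Disjoint (X : Set ι) (P ∪ N) := by
        rw [Set.disjoint_left]
        intro i hi hi'
        have := hX (Finset.mem_coe.1 hi)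
        rw [Set.mem_toFinset] at this
        exact this hi'
      have h1 := hcon X hXd
      rw [sp_union, sp_union] at h1
      have h2 : (((P ∪ N)ᶜ).toFinset \ X).card = ((P ∪ N)ᶜ \ (X : Set ι)).ncard := by
        rw [← Set.ncard_coe_finset]
        congr 1
        ext i
        simp
      rw [h2]
      omega)
  have hX : ∀ i ∈ X, i ∉ P ∧ i ∉ N := by
    intro i hi
    have : i ∈ ((P ∪ N)ᶜ).toFinset := hu ▸ Finset.mem_union_left _ hi
    rw [Set.mem_toFinset, Set.mem_compl_iff, Set.mem_union] at this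
    tauto
  have hY : ∀ i ∈ Y, i ∉ P ∧ i ∉ N := by
    intro i hi
    have : i ∈ ((P ∪ N)ᶜ).toFinset := hu ▸ Finset.mem_union_right _ hi
    rw [Set.mem_toFinset, Set.mem_compl_iff, Set.mem_union] at this
    tauto
  have hS := h.ext (fun i => if i ∈ X then 1 else if i ∈ Y then -1 else 0)
    (by rw [hsp]; exact Submodule.mem_top)
  have e1 : P ∪ {i | 0 < (if i ∈ X then (1 : ℝ) else if i ∈ Y then -1 else 0) ∧ i ∉ N} =
      P ∪ (X : Set ι) := by
    ext i
    simp only [Set.mem_union, Set.mem_ofPred_eq, Finset.mem_coe]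
    by_cases hi : i ∈ X
    · simp [hi, (hX i hi).2]
    · by_cases hi' : i ∈ Y
      · simp [hi, hi']
      · simp [hi, hi']
  have e2 : N ∪ {i | (if i ∈ X then (1 : ℝ) else if i ∈ Y then -1 else 0) < 0 ∧ i ∉ P} =
      N ∪ (Y : Set ι) := by
    ext i
    simp only [Set.mem_union, Set.mem_ofPred_eq, Finset.mem_coe]
    by_cases hi' : i ∈ Y
    · have hi : i ∉ X := fun hx => (Finset.disjoint_left.1 hd) hx hi'
      simp [hi, hi', (hY i hi').1]
    · by_cases hi : i ∈ X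
      · simp [hi, hi', show ¬ ((1 : ℝ) < 0) by norm_num]
      · simp [hi, hi']
  rw [e1, e2] at hS
  have h1 := hb _ _ hS
  have h2 := finrank_LL (v := w) (X := P ∪ (X : Set ι)) (Y := N ∪ (Y : Set ι))
  have h3 : finrank ℝ (sp w (P ∪ (X : Set ι) ∪ (N ∪ (Y : Set ι)))) ≤ finrank ℝ E :=
    Submodule.finrank_le _
  rw [← sp_union, ← sp_union] at ht
  omega

/-- **cell structure**. -/
theorem cell {w : ι → E} {j κ f ν δ : ℕ} (hF : Fam w j κ f ν) (hb : Bdd w κ) {P N : Set ι}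
    (h : SVec w P N) (hsp : sp w (P ∪ N) = ⊤) (hC : (P ∪ N).ncard = κ + j + 2 + δ)
    (hP : j + 2 + δ ≤ P.ncard) (hN : j + 2 + δ ≤ N.ncard)
    (hind : (2 ≤ f ∧ LinearIndepOn ℝ w N) ∨ (f = 0 ∧ ∀ H : Submodule ℝ E, finrank ℝ H ≤ 3 + δ →
      {i | w i ∈ H}.ncard + 2 + δ < finrank ℝ H + ν)) :
    ∃ Φp Φn : Submodule ℝ E, CellS w j κ f ν δ P N Φp Φn := by
  classical
  obtain ⟨E', hdis, hE⟩ := exists_fail hb h hsp
  have hdPN := h.disjoint
  have hdim := hF.dim
  have hcard := hF.card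
  have hE'c : E' ⊆ (P ∪ N)ᶜ := by
    intro i hi hi'
    exact (Set.disjoint_left.1 hdis) hi hi'
  have c1 : E'.ncard + ((P ∪ N)ᶜ \ E').ncard = ((P ∪ N)ᶜ).ncard := by
    rw [add_comm]
    exact Set.ncard_sdiff_add_ncard_of_subset hE'c (Set.toFinite _)
  have c2 : (P ∪ N).ncard + ((P ∪ N)ᶜ).ncard = Fintype.card ι := by
    rw [Set.ncard_add_ncard_compl, Nat.card_eq_fintype_card]
  have c3 : P.ncard + N.ncard = (P ∪ N).ncard :=
    (Set.ncard_union_eq hdPN (Set.toFinite _) (Set.toFinite _)).symm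
  have hPE : Disjoint P E' := by
    rw [Set.disjoint_left]
    intro i hi hi'
    exact hE'c hi' (Or.inl hi)
  have hNE : Disjoint N E' := by
    rw [Set.disjoint_left]
    intro i hi hi'
    exact hE'c hi' (Or.inr hi)
  have c4 : (P ∪ E').ncard = P.ncard + E'.ncard :=
    Set.ncard_union_eq hPE (Set.toFinite _) (Set.toFinite _)
  have c5 : (N ∪ E').ncard = N.ncard + E'.ncard :=
    Set.ncard_union_eq hNE (Set.toFinite _) (Set.toFinite _)
  have fcp : finrank ℝ (sp w (P ∪ E')) ≤ κ + 1 →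
      P.ncard + E'.ncard ≤ ν + finrank ℝ (sp w (P ∪ E')) := by
    intro hr
    have h1 := hF.fc _ hr
    have h2 : (P ∪ E').ncard ≤ {i | w i ∈ sp w (P ∪ E')}.ncard :=
      Set.ncard_le_ncard (fun i hi => mem_sp hi) (Set.toFinite _)
    omega
  have fcn : finrank ℝ (sp w (N ∪ E')) ≤ κ + 1 →
      N.ncard + E'.ncard ≤ ν + finrank ℝ (sp w (N ∪ E')) := by
    intro hr
    have h1 := hF.fc _ hr
    have h2 : (N ∪ E').ncard ≤ {i | w i ∈ sp w (N ∪ E')}.ncard :=
      Set.ncard_le_ncard (fun i hi => mem_sp hi) (Set.toFinite _)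
    omega
  -- the intersection
  have hsup : sp w (P ∪ E') ⊔ sp w (N ∪ E') = ⊤ := by
    rw [eq_top_iff, ← hsp, sp_union]
    exact sup_le_sup (sp_mono Set.subset_union_left) (sp_mono Set.subset_union_left)
  have hinf := Submodule.finrank_sup_add_finrank_inf_eq (sp w (P ∪ E')) (sp w (N ∪ E'))
  rw [hsup, finrank_top] at hinf
  have hset : {i | w i ∈ sp w (P ∪ E') ∧ w i ∈ sp w (N ∪ E')} =
      {i | w i ∈ sp w (P ∪ E') ⊓ sp w (N ∪ E')} := by
    ext i
    simp [Submodule.mem_inf]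
  have hsub : {i | i ∈ P ∧ w i ∈ sp w (N ∪ E')} ∪ {i | i ∈ N ∧ w i ∈ sp w (P ∪ E')} ∪ E' ⊆
      {i | w i ∈ sp w (P ∪ E') ⊓ sp w (N ∪ E')} := by
    rintro i ((⟨h1, h2⟩ | ⟨h1, h2⟩) | h1)
    · exact ⟨mem_sp (Or.inl h1), h2⟩
    · exact ⟨h2, mem_sp (Or.inl h1)⟩
    · exact ⟨mem_sp (Or.inr h1), mem_sp (Or.inr h1)⟩
  have c6 := Set.ncard_le_ncard hsub (Set.toFinite _)
  rw [Set.ncard_union_eq (by
      rw [Set.disjoint_left]
      rintro i (⟨h1, -⟩ | ⟨h1, -⟩) h2
      · exact hE'c h2 (Or.inl h1)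
      · exact hE'c h2 (Or.inr h1)) (Set.toFinite _) (Set.toFinite _),
    Set.ncard_union_eq (by
      rw [Set.disjoint_left]
      rintro i ⟨h1, -⟩ ⟨h2, -⟩
      exact (Set.disjoint_left.1 hdPN) h1 h2) (Set.toFinite _) (Set.toFinite _)] at c6
  have hnot : ¬ (finrank ℝ (sp w (P ∪ E')) ≤ κ + 1 ∧ finrank ℝ (sp w (N ∪ E')) ≤ κ + 1) := by
    rintro ⟨h1, h2⟩
    have g1 := fcp h1
    have g2 := fcn h2
    rcases hind with ⟨hf, hi⟩ | ⟨hf, hH⟩
    · have g3 := finrank_sp_eq hi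
      have g4 : finrank ℝ (sp w N) ≤ finrank ℝ (sp w (N ∪ E')) :=
        Submodule.finrank_mono (sp_mono Set.subset_union_left)
      omega
    · have g3 := hH (sp w (P ∪ E') ⊓ sp w (N ∪ E')) (by omega)
      omega
  have hp2 : κ + 2 ≤ finrank ℝ (sp w (P ∪ E')) := by
    by_contra hlt
    have h1 : finrank ℝ (sp w (P ∪ E')) ≤ κ + 1 := by omega
    have h2 := fcp h1
    have h3 : ¬ finrank ℝ (sp w (N ∪ E')) ≤ κ + 1 := fun h2 => hnot ⟨h1, h2⟩
    omega
  have hn2 : κ + 2 ≤ finrank ℝ (sp w (N ∪ E')) := by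
    by_contra hlt
    have h1 : finrank ℝ (sp w (N ∪ E')) ≤ κ + 1 := by omega
    have h2 := fcn h1
    omega
  have fc0 := hF.fc (sp w (P ∪ E') ⊓ sp w (N ∪ E')) (by omega)
  refine ⟨sp w (P ∪ E'), sp w (N ∪ E'), ?_⟩
  refine
    { hP := fun i hi => mem_sp (Or.inl hi)
      hN := fun i hi => mem_sp (Or.inl hi)
      dp := hp2
      dn := hn2
      sum := by omega
      ep := ?_
      en := ?_
      ex := by omega
      cap := by rw [hset]; omega }
  · have : {i | i ∉ P ∪ N ∧ w i ∉ sp w (P ∪ E')} ⊆ (P ∪ N)ᶜ \ E' := by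
      rintro i ⟨h1, h2⟩
      exact ⟨h1, fun h3 => h2 (mem_sp (Or.inr h3))⟩
    have := Set.ncard_le_ncard this (Set.toFinite _)
    omega
  · have : {i | i ∉ P ∪ N ∧ w i ∉ sp w (N ∪ E')} ⊆ (P ∪ N)ᶜ \ E' := by
      rintro i ⟨h1, h2⟩
      exact ⟨h1, fun h3 => h2 (mem_sp (Or.inr h3))⟩
    have := Set.ncard_le_ncard this (Set.toFinite _)
    omega

end H81.WK
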