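import Pool.Agent.H81.WK.Defs

/-! The quotient by a fully divisible subspace. -/

set_option linter.unusedSectionVars false

open Module Submodule H15

namespace H81.WK

variable {ι : Type*} [Fintype ι] {E : Type*} [AddCommGroup E] [Module ℝ E]
  [FiniteDimensional ℝ E]

private theorem finrank_comap_mkQ (F : Submodule ℝ E) (H : Submodule ℝ (E ⧸ F)) :
    finrank ℝ (H.comap F.mkQ : Submodule ℝ E) = finrank ℝ H + finrank ℝ F := by
  have h1 := LinearMap.finrank_range_add_finrank_ker (F.mkQ.domRestrict (H.comap F.mkQ))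
  have h2 : LinearMap.range (F.mkQ.domRestrict (H.comap F.mkQ)) = H := by
    rw [LinearMap.range_domRestrict, Submodule.map_comap_eq_of_surjective
      (Submodule.mkQ_surjective F)]
  have hle : F ≤ H.comap F.mkQ := by
    intro x hx
    have : F.mkQ x = 0 := by rw [← LinearMap.mem_ker, Submodule.ker_mkQ]; exact hx
    rw [Submodule.mem_comap, this]
    exact zero_mem _
  have h3 : finrank ℝ (LinearMap.ker (F.mkQ.domRestrict (H.comap F.mkQ))) = finrank ℝ F := by
    have h4 : LinearMap.ker (F.mkQ.domRestrict (H.comap F.mkQ)) = F.comap (H.comap F.mkQ).subtype := by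
      ext x
      rw [LinearMap.mem_ker, Submodule.mem_comap, LinearMap.domRestrict_apply,
        ← LinearMap.mem_ker, Submodule.ker_mkQ]
      rfl
    rw [h4]
    exact (Submodule.comapSubtypeEquivOfLe hle).finrank_eq
  rw [h2, h3] at h1
  omega

/-- the quotient by a fully divisible subspace. -/
theorem quot_fam {v : ι → E} {j k : ℕ} (hF : Fam v j k 0 k) (F : Submodule ℝ E)
    (hFk : finrank ℝ F ≤ k) :
    Fam (F.mkQ ∘ v) j (k - finrank ℝ F) (finrank ℝ F) (k + finrank ℝ F) := by
  have hq := Submodule.finrank_quotient_add_finrank F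
  have hd := hF.dim
  have hc := hF.card
  refine ⟨by omega, by omega, ?_, ?_⟩
  · intro i
    have h1 : sp (F.mkQ ∘ v) ({i}ᶜ) = (sp v ({i}ᶜ)).map F.mkQ := by
      unfold sp
      rw [Submodule.map_span, Set.image_comp]
    rw [h1, hF.col i, Submodule.map_top, Submodule.range_mkQ]
  · intro H hH
    have h1 := finrank_comap_mkQ F H
    have h2 := hF.fc (H.comap F.mkQ) (by omega)
    have h3 : {i | v i ∈ H.comap F.mkQ} = {i | (F.mkQ ∘ v) i ∈ H} := by
      ext i
      simp only [Set.mem_ofPred_eq, Submodule.mem_comap, Function.comp_apply]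
    rw [h3] at h2
    omega

end H81.WK
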