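import Pool.Agent.H81.WK.Main
import Pool.Agent.H65.WKA.Asym

/-! The inequalities between `k`, `j`, `q`. -/

namespace H81.WK

/-- `q = 2 (j+1) (log2 (k+j+2) + 1)`. -/
theorem asym {j k : ℕ} (hk : 10 ^ 6 * (j + 1) ^ 5 ≤ k) :
    ∃ q : ℕ, ((k + j + 1).choose (j + 1) + (k + j + 1).choose j) * 2 ^ q < 3 ^ q ∧
      3 * j * bnd j (q + j) + 2 * (q + j + 4) ^ 3 + 2 * (q + j) + 20 ≤ k :=
  H65.WKA.asym' hk

end H81.WK
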