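import Pool.Agent.H81.WK.Count2
import Pool.Agent.H42.WK.Gen

/-! The line of dependencies. -/

set_option linter.unusedSectionVars false

open Module Submodule H15

namespace H81.WK

variable {ι : Type*} [Fintype ι] {E : Type*} [AddCommGroup E] [Module ℝ E]
  [FiniteDimensional ℝ E]

open Classical in
/-- the dependency of `g` in the basis `B`. -/
noncomputable def chDep (w : ι → E) (B : Finset ι) (s : ι → (E →ₗ[ℝ] ℝ)) (g i : ι) : ℝ :=
  (if i = g then 1 else 0) - (if i ∈ B then s i (w g) else 0)

theorem chDep_sum {w : ι → E} {B : Finset ι} {s : ι → (E →ₗ[ℝ] ℝ)} (hB : Bas w B s) (g : ι) :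
    ∑ i, chDep w B s g i • w i = 0 := by
  classical
  unfold chDep
  simp only [sub_smul, ite_smul, one_smul, zero_smul, Finset.sum_sub_distrib,
    Finset.sum_ite_eq', Finset.mem_univ, if_true, Finset.sum_ite_mem, Finset.univ_inter]
  rw [hB.repr, sub_self]

/-- **choose**: the data for the walk. -/
theorem choose_line {w : ι → E} {j κ f ν q : ℕ} (hF : Fam w j κ f ν) (hj : 1 ≤ j)
    (hν : 3 * (ν + 1) + 2 ≤ 2 * (κ + f + ν))
    (hq : ((κ + j + 1).choose (j + 1) + (κ + j + 1).choose j) * 2 ^ q < 3 ^ q) :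
    ∃ (C : Set ι) (x y : ι → ℝ) (δ : ℕ), δ ≤ q + j ∧ C.ncard = κ + j + 2 + δ ∧ sp w C = ⊤ ∧
      ∑ i, x i • w i = 0 ∧ ∑ i, y i • w i = 0 ∧
      (∀ i, i ∉ C → x i = 0 ∧ y i = 0) ∧ (∀ i ∈ C, y i = 0 → x i ≠ 0) ∧
      (∀ t : ℝ, {i | y i ≠ 0 ∧ x i + t * y i = 0}.ncard ≤ j + 1) ∧
      κ + 1 ≤ 3 * j * {i | y i ≠ 0}.ncard ∧
      (∀ t : ℝ, (∃ i, y i ≠ 0 ∧ 0 < x i + t * y i) →
        LinearIndepOn ℝ w {i | x i + t * y i < 0}) := by
  classical
  have huniv : sp w Set.univ = ⊤ := by
    have hne : 0 < Fintype.card ι := by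
      have h1 := hF.card
      have h2 := hF.dim
      omega
    obtain ⟨i⟩ := Fintype.card_pos_iff.1 hne
    rw [eq_top_iff, ← hF.col i]
    exact sp_mono (Set.subset_univ _)
  obtain ⟨B, s, hB⟩ := exists_bas huniv
  obtain ⟨g0, hg0B, hg0⟩ := exists_g0 hF hB hj hν
  obtain ⟨G, hGc, hGB, hg0G, hsplit, hhit⟩ := exists_G hF hB hj hν hq g0
  -- generic coefficients
  let c : ι ⊕ (ι × ι) → ι → ℝ := Sum.elim
    (fun b g => if g ∈ G then s b (w g) else 0)
    (fun p g => if g ∈ G then s p.1 (w g) * s p.2 (w g0) - s p.2 (w g) * s p.1 (w g0) else 0)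
  obtain ⟨α, hα, hgen⟩ := H42.WK.exists_generic (S := {p // c p ≠ 0}) (fun p => c p.1)
    (fun p => p.2)
  have hgen1 : ∀ b, (∃ g ∈ G, s b (w g) ≠ 0) → ∑ g ∈ G, α g * s b (w g) ≠ 0 := by
    rintro b ⟨g, hg, hne⟩
    have h1 : c (Sum.inl b) ≠ 0 := by
      intro h0
      have := congrFun h0 g
      simp only [c, Sum.elim_inl, if_pos hg, Pi.zero_apply] at this
      exact hne this
    have h2 := hgen ⟨Sum.inl b, h1⟩
    simp only [c, Sum.elim_inl, mul_ite, mul_zero, Finset.sum_ite_mem, Finset.univ_inter] at h2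
    exact h2
  have hgen2 : ∀ b b', (∃ g ∈ G, s b (w g) * s b' (w g0) - s b' (w g) * s b (w g0) ≠ 0) →
      ∑ g ∈ G, α g * (s b (w g) * s b' (w g0) - s b' (w g) * s b (w g0)) ≠ 0 := by
    rintro b b' ⟨g, hg, hne⟩
    have h1 : c (Sum.inr (b, b')) ≠ 0 := by
      intro h0
      have := congrFun h0 g
      simp only [c, Sum.elim_inr, if_pos hg, Pi.zero_apply] at this
      exact hne this
    have h2 := hgen ⟨Sum.inr (b, b'), h1⟩
    simp only [c, Sum.elim_inr, mul_ite, mul_zero, Finset.sum_ite_mem, Finset.univ_inter] at h2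
    exact h2
  have hGB' : ∀ g ∈ G, g ∉ B := fun g hg hb => Finset.disjoint_left.1 hGB hg hb
  -- the vectors
  let y : ι → ℝ := chDep w B s g0
  let x : ι → ℝ := fun i => ∑ g ∈ G, α g * chDep w B s g i
  have hyB : ∀ i ∈ B, y i = -s i (w g0) := by
    intro i hi
    have : i ≠ g0 := fun h => hg0B (h ▸ hi)
    simp only [y, chDep, if_neg this, if_pos hi, zero_sub]
  have hyg0 : y g0 = 1 := by
    simp only [y, chDep, if_true, if_neg hg0B, sub_zero]
  have hy0 : ∀ i, i ∉ B → i ≠ g0 → y i = 0 := by
    intro i hi h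
    simp only [y, chDep, if_neg h, if_neg hi, sub_zero]
  have hxB : ∀ i ∈ B, x i = -∑ g ∈ G, α g * s i (w g) := by
    intro i hi
    simp only [x, ← Finset.sum_neg_distrib]
    refine Finset.sum_congr rfl fun g hg => ?_
    have : i ≠ g := fun h => hGB' g hg (h ▸ hi)
    simp only [chDep, if_neg this, if_pos hi]
    ring
  have hxG : ∀ i ∈ G, x i = α i := by
    intro i hi
    simp only [x]
    rw [Finset.sum_eq_single i]
    · simp only [chDep, if_true, if_neg (hGB' i hi)]; ring
    · intro g _ hne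
      simp only [chDep, if_neg (Ne.symm hne), if_neg (hGB' i hi)]; ring
    · intro h; exact absurd hi h
  have hx0 : ∀ i, i ∉ B → i ∉ G → x i = 0 := by
    intro i hi h
    simp only [x]
    refine Finset.sum_eq_zero fun g hg => ?_
    have : i ≠ g := fun he => h (he ▸ hg)
    simp only [chDep, if_neg this, if_neg hi]; ring
  have hxs : ∑ i, x i • w i = 0 := by
    simp only [x, Finset.sum_smul, mul_smul]
    rw [Finset.sum_comm]
    refine Finset.sum_eq_zero fun g _ => ?_
    rw [← Finset.smul_sum, chDep_sum hB, smul_zero]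
  have hys : ∑ i, y i • w i = 0 := chDep_sum hB g0
  refine ⟨((insert g0 (B ∪ G) : Finset ι) : Set ι), x, y, G.card, hGc, ?_, ?_, hxs, hys,
    ?_, ?_, ?_, ?_, ?_⟩
  · rw [Set.ncard_coe_finset, Finset.card_insert_of_notMem, Finset.card_union_of_disjoint,
      hB.card, hF.dim]
    · omega
    · exact hGB.symm
    · rw [Finset.mem_union, not_or]; exact ⟨hg0B, hg0G⟩
  · rw [eq_top_iff]
    intro e _
    rw [← hB.repr e]
    refine Submodule.sum_mem _ fun b hb => Submodule.smul_mem _ _ (mem_sp ?_)
    rw [Finset.mem_coe, Finset.mem_insert, Finset.mem_union]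
    exact Or.inr (Or.inl hb)
  · intro i hi
    rw [Finset.mem_coe, Finset.mem_insert, Finset.mem_union, not_or, not_or] at hi
    exact ⟨hx0 i hi.2.1 hi.2.2, hy0 i hi.2.1 hi.1⟩
  · intro i hi hyi
    rw [Finset.mem_coe, Finset.mem_insert, Finset.mem_union] at hi
    rcases hi with rfl | hi | hi
    · rw [hyg0] at hyi; exact absurd hyi one_ne_zero
    · rw [hyB i hi, neg_eq_zero] at hyi
      rw [hxB i hi, neg_ne_zero]
      exact hgen1 i (hhit i hi hyi)
    · rw [hxG i hi]; exact (hα i).ne'
  · -- simultaneous crossings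
    intro t
    let R : Finset ι := B.filter (fun b => s b (w g0) ≠ 0 ∧ x b + t * y b = 0)
    have hRle : R.card ≤ j := by
      by_contra hcon
      push Not at hcon
      obtain ⟨R', hR', hR'c⟩ := Finset.exists_subset_card_eq (show j + 1 ≤ R.card from hcon)
      have hmem : ∀ b ∈ R', b ∈ B ∧ s b (w g0) ≠ 0 ∧ x b + t * y b = 0 := by
        intro b hb
        have := hR' hb
        rwa [Finset.mem_filter] at this
      obtain ⟨g, hg, hng⟩ := hsplit R' (fun b hb => (hmem b hb).1) (fun b hb => (hmem b hb).2.1)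
        hR'c
      have hne : R'.Nonempty := by rw [← Finset.card_pos]; omega
      obtain ⟨b0, hb0⟩ := hne
      apply hng
      refine ⟨s b0 (w g) / s b0 (w g0), fun b hb => ?_⟩
      by_contra hbne
      obtain ⟨h0B, h0s, h0x⟩ := hmem b0 hb0
      obtain ⟨h1B, h1s, h1x⟩ := hmem b hb
      apply hgen2 b0 b ⟨g, hg, ?_⟩
      · rw [hxB b0 h0B, hyB b0 h0B] at h0x
        rw [hxB b h1B, hyB b h1B] at h1x
        have e1 : ∑ g ∈ G, α g * (s b0 (w g) * s b (w g0) - s b (w g) * s b0 (w g0)) =
            (∑ g ∈ G, α g * s b0 (w g)) * s b (w g0) -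
              (∑ g ∈ G, α g * s b (w g)) * s b0 (w g0) := by
          rw [Finset.sum_mul, Finset.sum_mul, ← Finset.sum_sub_distrib]
          exact Finset.sum_congr rfl fun g _ => by ring
        rw [e1]
        have e2 : ∑ g ∈ G, α g * s b0 (w g) = -(t * s b0 (w g0)) := by linarith
        have e3 : ∑ g ∈ G, α g * s b (w g) = -(t * s b (w g0)) := by linarith
        rw [e2, e3]; ring
      · intro h0
        apply hbne
        field_simp
        linarith
    have hsub : {i | y i ≠ 0 ∧ x i + t * y i = 0} ⊆ ((insert g0 R : Finset ι) : Set ι) := by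
      rintro i ⟨h1, h2⟩
      rw [Finset.mem_coe, Finset.mem_insert]
      by_cases hi : i = g0
      · exact Or.inl hi
      · right
        by_cases hiB : i ∈ B
        · rw [Finset.mem_filter]
          refine ⟨hiB, ?_, h2⟩
          rw [hyB i hiB] at h1
          exact fun h => h1 (by rw [h, neg_zero])
        · exact absurd (hy0 i hiB hi) h1
    refine (Set.ncard_le_ncard hsub (Finset.finite_toSet _)).trans ?_
    rw [Set.ncard_coe_finset]
    exact (Finset.card_insert_le _ _).trans (by omega)
  · refine hg0.trans (Nat.mul_le_mul_left _ (Set.ncard_le_ncard ?_ (Set.toFinite _)))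
    rintro b ⟨hb, hne⟩
    show y b ≠ 0
    rw [hyB b hb]
    exact neg_ne_zero.2 hne
  · rintro t ⟨i0, hi0, hpos⟩
    rw [linInd_iff]
    intro a ha hsum
    -- support of `a`
    have hsupp : ∀ i, i ∉ B → i ≠ g0 → a i = 0 := by
      intro i hi hig
      apply ha
      intro hneg
      have h1 : x i + t * y i < 0 := hneg
      rw [hy0 i hi hig, mul_zero, add_zero] at h1
      by_cases hiG : i ∈ G
      · rw [hxG i hiG] at h1; exact absurd h1 (not_lt.2 (hα i).le)
      · rw [hx0 i hi hiG] at h1; exact lt_irrefl _ h1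
    have hsum2 : a g0 • w g0 + ∑ b ∈ B, a b • w b = 0 := by
      rw [← hsum]
      have : ∑ i, a i • w i = ∑ i ∈ insert g0 B, a i • w i := by
        symm
        apply Finset.sum_subset (Finset.subset_univ _)
        intro i _ hi
        rw [Finset.mem_insert, not_or] at hi
        rw [hsupp i hi.2 hi.1, zero_smul]
      rw [this, Finset.sum_insert hg0B]
    have hcoef : ∀ b ∈ B, a g0 * s b (w g0) + a b = 0 := by
      intro b hb
      have h1 := congrArg (s b) hsum2
      rw [map_add, map_smul, map_sum, map_zero, Finset.sum_eq_single b] at h1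
      · rw [map_smul, hB.one b hb, smul_eq_mul, smul_eq_mul, mul_one] at h1
        exact h1
      · intro b' hb' hne
        rw [map_smul, hB.zero b hb b' hb' hne.symm, smul_zero]
      · intro h; exact absurd hb h
    have hag0 : a g0 = 0 := by
      by_contra hne
      -- all elements with `y i ≠ 0` are negative
      have hall : ∀ i, y i ≠ 0 → a i ≠ 0 := by
        intro i hi
        by_cases hig : i = g0
        · rw [hig]; exact hne
        · by_cases hiB : i ∈ B
          · intro h0
            have h1 := hcoef i hiB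
            rw [h0, add_zero, mul_eq_zero] at h1
            rcases h1 with h1 | h1
            · exact hne h1
            · apply hi
              rw [hyB i hiB, h1, neg_zero]
          · exact absurd (hy0 i hiB hig) hi
      apply hall i0 hi0
      apply ha
      intro hneg
      have : x i0 + t * y i0 < 0 := hneg
      linarith
    intro i
    by_cases hiB : i ∈ B
    · have := hcoef i hiB
      rw [hag0, zero_mul, zero_add] at this
      exact this
    · by_cases hig : i = g0
      · rw [hig]; exact hag0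
      · exact hsupp i hiB hig

end H81.WK
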