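import Pool.Agent.H81.WK.Defs

/-! Counting with FC in the coordinates of a basis. -/

set_option linter.unusedSectionVars false

open Module Submodule H15

namespace H81.WK

variable {ι : Type*} [Fintype ι] {E : Type*} [AddCommGroup E] [Module ℝ E]
  [FiniteDimensional ℝ E]

/-- `B` is a basis with coordinates `s`. -/
structure Bas (w : ι → E) (B : Finset ι) (s : ι → (E →ₗ[ℝ] ℝ)) : Prop where
  one : ∀ b ∈ B, s b (w b) = 1
  zero : ∀ b ∈ B, ∀ c ∈ B, b ≠ c → s b (w c) = 0
  repr : ∀ e : E, ∑ b ∈ B, s b e • w b = e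
  card : B.card = finrank ℝ E

theorem exists_bas {w : ι → E} (h : sp w Set.univ = ⊤) : ∃ B s, Bas w B s := by
  classical
  obtain ⟨b, -, -, hsp, hli⟩ := exists_linearIndepOn_extension (K := ℝ) (v := w)
    (linearIndepOn_empty ℝ w) (Set.subset_univ (∅ : Set ι))
  obtain ⟨f, hf⟩ := exists_coord hli
  have hb : sp w b = ⊤ := by
    refine top_unique ?_
    rw [← h]
    exact span_le.2 hsp
  have hone : ∀ i ∈ b, ∀ k, f k (w i) = if k = i then 1 else 0 := by
    intro i hi k
    have h1 := hf (Pi.single i 1) (fun l hl => by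
      rw [Pi.single_eq_of_ne]
      rintro rfl
      exact hl hi) k
    have h2 : ∑ l, (Pi.single i (1 : ℝ) : ι → ℝ) l • w l = w i := by
      rw [Finset.sum_eq_single i]
      · simp
      · intro l _ hl
        rw [Pi.single_eq_of_ne hl, zero_smul]
      · intro hi
        exact absurd (Finset.mem_univ _) hi
    rw [h2] at h1
    rw [h1, Pi.single_apply]
  have hrep : ∀ e : E, ∑ i ∈ b.toFinset, f i e • w i = e := by
    intro e
    have he : e ∈ sp w b := by rw [hb]; trivial
    obtain ⟨a, ha, hae⟩ := mem_sp_iff.1 he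
    have h1 : ∀ i, f i e = a i := by
      intro i
      rw [← hae]
      exact hf a ha i
    have h2 : ∑ i ∈ b.toFinset, f i e • w i = ∑ i, f i e • w i := by
      refine Finset.sum_subset (Finset.subset_univ _) fun i _ hi => ?_
      rw [h1, ha i (by simpa using hi), zero_smul]
    rw [h2]
    simp only [h1]
    exact hae
  refine ⟨b.toFinset, f, ?_, ?_, hrep, ?_⟩
  · intro i hi
    rw [hone i (by simpa using hi), if_pos rfl]
  · intro i hi k hk hik
    rw [hone k (by simpa using hk), if_neg hik]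
  · rw [← Set.ncard_eq_toFinset_card', ← finrank_sp_eq hli, hb, finrank_top]

variable {w : ι → E} {j κ f ν : ℕ} {B : Finset ι} {s : ι → (E →ₗ[ℝ] ℝ)}

/-- few elements vanish on a `j`-subset. -/
theorem count_zero (hF : Fam w j κ f ν) (hB : Bas w B s) {R : Finset ι} (hR : R ⊆ B)
    (hRc : j ≤ R.card) : {g | g ∉ B ∧ ∀ b ∈ R, s b (w g) = 0}.ncard ≤ ν := by
  classical
  have hBc : B.card = κ + j + 1 := by rw [hB.card, hF.dim]
  have hsub : (B \ R).card = B.card - R.card := Finset.card_sdiff_of_subset hR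
  have hle := Finset.card_le_card hR
  have h1 : finrank ℝ (sp w ((B \ R : Finset ι) : Set ι)) ≤ (B \ R).card := by
    refine finrank_sp_le.trans ?_
    rw [Set.ncard_coe_finset]
  have h2 := hF.fc (sp w ((B \ R : Finset ι) : Set ι)) (by omega)
  have h3 : ((B \ R : Finset ι) : Set ι) ∪ {g | g ∉ B ∧ ∀ b ∈ R, s b (w g) = 0} ⊆
      {i | w i ∈ sp w ((B \ R : Finset ι) : Set ι)} := by
    rintro i (hi | ⟨_, hi⟩)
    · exact mem_sp hi
    · show w i ∈ sp w ((B \ R : Finset ι) : Set ι)
      rw [← hB.repr (w i)]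
      refine Submodule.sum_mem _ fun b hb => ?_
      by_cases hbR : b ∈ R
      · rw [hi b hbR, zero_smul]
        exact Submodule.zero_mem _
      · exact Submodule.smul_mem _ _ (mem_sp (by simp [hb, hbR]))
  have h4 : Disjoint ((B \ R : Finset ι) : Set ι) {g | g ∉ B ∧ ∀ b ∈ R, s b (w g) = 0} := by
    rw [Set.disjoint_left]
    rintro i hi ⟨hi2, _⟩
    exact hi2 (Finset.mem_sdiff.1 (Finset.mem_coe.1 hi)).1
  have h5 := Set.ncard_le_ncard h3 (Set.toFinite _)
  rw [Set.ncard_union_eq h4 (Set.toFinite _) (Set.toFinite _), Set.ncard_coe_finset] at h5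
  omega

/-- few elements are parallel to `g0` on a `(j+1)`-subset of the support of `g0`. -/
theorem count_par (hF : Fam w j κ f ν) (hB : Bas w B s) {g0 : ι} {R : Finset ι} (hR : R ⊆ B)
    (hg0 : ∀ b ∈ R, s b (w g0) ≠ 0) (hRc : R.card = j + 1) :
    {g | g ∉ B ∧ ∃ a : ℝ, ∀ b ∈ R, s b (w g) = a * s b (w g0)}.ncard ≤ ν + 1 := by
  classical
  have hBc : B.card = κ + j + 1 := by rw [hB.card, hF.dim]
  have hsub : (B \ R).card = B.card - R.card := Finset.card_sdiff_of_subset hR
  have hle := Finset.card_le_card hR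
  have hins : (insert g0 (B \ R)).card ≤ (B \ R).card + 1 := Finset.card_insert_le _ _
  have h1 : finrank ℝ (sp w ((insert g0 (B \ R) : Finset ι) : Set ι)) ≤ (B \ R).card + 1 := by
    refine finrank_sp_le.trans ?_
    rw [Set.ncard_coe_finset]
    exact hins
  have h2 := hF.fc (sp w ((insert g0 (B \ R) : Finset ι) : Set ι)) (by omega)
  have h3 : ((B \ R : Finset ι) : Set ι) ∪
      {g | g ∉ B ∧ ∃ a : ℝ, ∀ b ∈ R, s b (w g) = a * s b (w g0)} ⊆
      {i | w i ∈ sp w ((insert g0 (B \ R) : Finset ι) : Set ι)} := by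
    rintro i (hi | ⟨_, a, hi⟩)
    · exact mem_sp (by
        rw [Finset.coe_insert]
        exact Set.mem_insert_of_mem _ hi)
    · show w i ∈ sp w ((insert g0 (B \ R) : Finset ι) : Set ι)
      have hg : w g0 ∈ sp w ((insert g0 (B \ R) : Finset ι) : Set ι) := mem_sp (by simp)
      have hd : w i - a • w g0 ∈ sp w ((insert g0 (B \ R) : Finset ι) : Set ι) := by
        rw [← hB.repr (w i - a • w g0)]
        refine Submodule.sum_mem _ fun b hb => ?_
        by_cases hbR : b ∈ R
        · rw [map_sub, map_smul, hi b hbR, smul_eq_mul, sub_self, zero_smul]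
          exact Submodule.zero_mem _
        · exact Submodule.smul_mem _ _ (mem_sp (by simp [hb, hbR]))
      have h6 := Submodule.add_mem _ hd (Submodule.smul_mem _ a hg)
      rwa [sub_add_cancel] at h6
  have h4 : Disjoint ((B \ R : Finset ι) : Set ι)
      {g | g ∉ B ∧ ∃ a : ℝ, ∀ b ∈ R, s b (w g) = a * s b (w g0)} := by
    rw [Set.disjoint_left]
    rintro i hi ⟨hi2, _⟩
    exact hi2 (Finset.mem_sdiff.1 (Finset.mem_coe.1 hi)).1
  have h5 := Set.ncard_le_ncard h3 (Set.toFinite _)
  rw [Set.ncard_union_eq h4 (Set.toFinite _) (Set.toFinite _), Set.ncard_coe_finset] at h5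
  omega

end H81.WK
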