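import Pool.Agent.H81.WK.Count

/-! An element with large support. -/

set_option linter.unusedSectionVars false

open Module Submodule H15

namespace H81.WK

variable {ι : Type*} [Fintype ι] {E : Type*} [AddCommGroup E] [Module ℝ E]
  [FiniteDimensional ℝ E]

variable {w : ι → E} {j κ f ν : ℕ} {B : Finset ι} {s : ι → (E →ₗ[ℝ] ℝ)}

theorem exists_g0' (hF : Fam w j κ f ν) (hB : Bas w B s) (hj : 1 ≤ j)
    (hν : 3 * (ν + 1) + 2 ≤ 2 * (κ + f + ν)) :
    ∃ g0, g0 ∉ B ∧ κ + 1 ≤ 3 * j * {b | b ∈ B ∧ s b (w g0) ≠ 0}.ncard := by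
  classical
  by_contra hcon
  push Not at hcon
  have hBc : B.card = κ + j + 1 := by rw [hB.card, hF.dim]
  let A : Finset ι := Bᶜ
  have hAc : A.card + 1 = κ + f + ν := by
    have h1 : A.card + B.card = Fintype.card ι := by
      rw [Finset.card_compl]; have := Finset.card_le_univ B; omega
    have h2 := hF.card
    have h3 := hF.dim
    omega
  -- blocks
  let e : B ≃ Fin B.card := B.equivFin
  let p : ℕ := (κ + j + 1) / j
  let R : ℕ → Finset ι := fun i => (Finset.univ.filter (fun b : B => (e b).1 / j = i)).map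
    (Function.Embedding.subtype _)
  have hRB : ∀ i, R i ⊆ B := by
    intro i b hb
    obtain ⟨b', -, rfl⟩ := Finset.mem_map.1 hb
    exact b'.2
  have hmem : ∀ i, ∀ b, (hb : b ∈ B) → (b ∈ R i ↔ (e ⟨b, hb⟩).1 / j = i) := by
    intro i b hb
    constructor
    · intro h
      obtain ⟨b', hb', hbb⟩ := Finset.mem_map.1 h
      have : b' = ⟨b, hb⟩ := Subtype.ext hbb
      rw [← this]
      exact (Finset.mem_filter.1 hb').2
    · intro h
      exact Finset.mem_map.2 ⟨⟨b, hb⟩, Finset.mem_filter.2 ⟨Finset.mem_univ _, h⟩, rfl⟩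
  have hpj : p * j ≤ κ + j + 1 := Nat.div_mul_le_self _ _
  have hpj2 : κ + 1 < p * j := by
    have h1 := Nat.div_add_mod (κ + j + 1) j
    have h2 := Nat.mod_lt (κ + j + 1) (show 0 < j from hj)
    have h3 : j * p + (κ + j + 1) % j = κ + j + 1 := h1
    have h4 : p * j = j * p := Nat.mul_comm _ _
    omega
  have hRc : ∀ i < p, j ≤ (R i).card := by
    intro i hi
    have hij : (i + 1) * j ≤ B.card := by
      have := Nat.mul_le_mul_right j (show i + 1 ≤ p from hi)
      omega
    let φ : Fin j → ι := fun m => (e.symm ⟨i * j + m.1, by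
      have := m.2
      have h1 : (i + 1) * j = i * j + j := by ring
      omega⟩ : B).1
    have hφ : Function.Injective φ := by
      intro m m' h
      have h1 := e.symm.injective (Subtype.ext h)
      have h2 := congrArg Fin.val h1
      simp only at h2
      exact Fin.ext (by omega)
    have h1 : (Finset.univ.image φ) ⊆ R i := by
      intro b hb
      obtain ⟨m, -, rfl⟩ := Finset.mem_image.1 hb
      rw [hmem i _ (e.symm _).2]
      have : (⟨(e.symm ⟨i * j + m.1, by
        have := m.2
        have h1 : (i + 1) * j = i * j + j := by ring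
        omega⟩ : B).1, (e.symm _).2⟩ : B) = e.symm ⟨i * j + m.1, by
        have := m.2
        have h1 : (i + 1) * j = i * j + j := by ring
        omega⟩ := rfl
      rw [Subtype.coe_eta, Equiv.apply_symm_apply]
      show (i * j + m.1) / j = i
      rw [Nat.mul_comm, Nat.mul_add_div (show 0 < j from hj), Nat.div_eq_of_lt m.2, Nat.add_zero]
    have h2 := Finset.card_le_card h1
    rwa [Finset.card_image_of_injective _ hφ, Finset.card_univ, Fintype.card_fin] at h2
  -- each block is hit by many
  have hhit : ∀ i ∈ Finset.range p, A.card ≤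
      (A.filter (fun g => ∃ b ∈ R i, s b (w g) ≠ 0)).card + ν := by
    intro i hi
    have h1 := count_zero hF hB (hRB i) (hRc i (Finset.mem_range.1 hi))
    have h2 : {g | g ∉ B ∧ ∀ b ∈ R i, s b (w g) = 0} =
        ((A.filter (fun g => ¬ ∃ b ∈ R i, s b (w g) ≠ 0) : Finset ι) : Set ι) := by
      ext g
      simp only [Set.mem_setOf_eq, Finset.coe_filter, A, Finset.mem_compl]
      push Not
      rfl
    rw [h2, Set.ncard_coe_finset] at h1
    have h3 := Finset.card_filter_add_card_filter_not (s := A) (fun g => ∃ b ∈ R i, s b (w g) ≠ 0)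
    omega
  have hsum1 : p * A.card ≤ ∑ i ∈ Finset.range p,
      (A.filter (fun g => ∃ b ∈ R i, s b (w g) ≠ 0)).card + p * ν := by
    have h1 := Finset.sum_le_sum hhit
    rw [Finset.sum_const, Finset.card_range, smul_eq_mul, Finset.sum_add_distrib,
      Finset.sum_const, Finset.card_range, smul_eq_mul] at h1
    exact h1
  have hsum2 : ∑ i ∈ Finset.range p, (A.filter (fun g => ∃ b ∈ R i, s b (w g) ≠ 0)).card =
      ∑ g ∈ A, ((Finset.range p).filter (fun i => ∃ b ∈ R i, s b (w g) ≠ 0)).card := by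
    simp only [Finset.card_filter]
    exact Finset.sum_comm
  have hsum3 : ∀ g ∈ A, 3 * j * ((Finset.range p).filter (fun i => ∃ b ∈ R i, s b (w g) ≠ 0)).card
      ≤ κ := by
    intro g hg
    have h1 := hcon g (Finset.mem_compl.1 hg)
    have h2 : ((Finset.range p).filter (fun i => ∃ b ∈ R i, s b (w g) ≠ 0)).card ≤
        {b | b ∈ B ∧ s b (w g) ≠ 0}.ncard := by
      have h3 : {b | b ∈ B ∧ s b (w g) ≠ 0} =
          ((B.filter (fun b => s b (w g) ≠ 0) : Finset ι) : Set ι) := by
        ext b; simp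
      rw [h3, Set.ncard_coe_finset]
      have h4 : (Finset.range p).filter (fun i => ∃ b ∈ R i, s b (w g) ≠ 0) ⊆
          (B.filter (fun b => s b (w g) ≠ 0)).image
            (fun b => if hb : b ∈ B then (e ⟨b, hb⟩).1 / j else 0) := by
        intro i hi
        obtain ⟨b, hb, hbs⟩ := (Finset.mem_filter.1 hi).2
        have hbB := hRB i hb
        refine Finset.mem_image.2 ⟨b, Finset.mem_filter.2 ⟨hbB, hbs⟩, ?_⟩
        rw [dif_pos hbB]
        exact (hmem i b hbB).1 hb
      exact (Finset.card_le_card h4).trans Finset.card_image_le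
    have h3 := Nat.mul_le_mul_left (3 * j) h2
    omega
  have hsum4 : 3 * j * ∑ g ∈ A,
      ((Finset.range p).filter (fun i => ∃ b ∈ R i, s b (w g) ≠ 0)).card ≤ A.card * κ := by
    rw [Finset.mul_sum]
    have := Finset.sum_le_sum hsum3
    rwa [Finset.sum_const, smul_eq_mul] at this
  rw [hsum2] at hsum1
  set T := ∑ g ∈ A, ((Finset.range p).filter (fun i => ∃ b ∈ R i, s b (w g) ≠ 0)).card
  -- 3 j p u ≤ 3 j T + 3 j p ν ≤ u κ + 3 j p ν, 3 ν ≤ 2 u
  have h5 : 3 * (p * j) * A.card ≤ A.card * κ + (p * j) * (3 * ν) := by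
    have := Nat.mul_le_mul_left (3 * j) hsum1
    nlinarith
  have h6 : (p * j) * (3 * ν) ≤ (p * j) * (2 * A.card) := Nat.mul_le_mul_left _ (by omega)
  have h7 : (p * j) * A.card ≤ A.card * κ := by nlinarith
  have h8 : 0 < A.card := by omega
  have h9 : p * j ≤ κ := by
    have : A.card * (p * j) ≤ A.card * κ := by rw [Nat.mul_comm]; exact h7
    exact Nat.le_of_mul_le_mul_left this h8
  omega

end H81.WK
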