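import Pool.Agent.H81.WK.Count
import Pool.Agent.H81.WK.G0
import Pool.Agent.H74.WK.G
import Pool.Agent.H76.WK.Seq

/-! Counting in the coordinates of a basis, second part: `g0` and the set `G`. -/

set_option linter.unusedSectionVars false

open Module Submodule H15

namespace H81.WK

variable {ι : Type*} [Fintype ι] {E : Type*} [AddCommGroup E] [Module ℝ E]
  [FiniteDimensional ℝ E]

variable {w : ι → E} {j κ f ν : ℕ} {B : Finset ι} {s : ι → (E →ₗ[ℝ] ℝ)}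

/-- an element with large support (cut `B` into blocks of size `j`: each block is hit by at least
`u - ν ≥ u / 3` elements outside `B`, so some `g0` hits at least a third of the blocks). -/
theorem exists_g0 (hF : Fam w j κ f ν) (hB : Bas w B s) (hj : 1 ≤ j)
    (hν : 3 * (ν + 1) + 2 ≤ 2 * (κ + f + ν)) :
    ∃ g0, g0 ∉ B ∧ κ + 1 ≤ 3 * j * {b | b ∈ B ∧ s b (w g0) ≠ 0}.ncard := by
  exact exists_g0' hF hB hj hν

/-- a sequence which splits all `(j+1)`-subsets of the support of `g0` and hits all `j`-subsets. -/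
theorem exists_seq (hF : Fam w j κ f ν) (hB : Bas w B s)
    (hν : 3 * (ν + 1) + 2 ≤ 2 * (κ + f + ν)) {q : ℕ}
    (hq : ((κ + j + 1).choose (j + 1) + (κ + j + 1).choose j) * 2 ^ q < 3 ^ q) (g0 : ι) :
    ∃ g : Fin q → ι, (∀ i, g i ∉ B) ∧
      (∀ R ⊆ B, (∀ b ∈ R, s b (w g0) ≠ 0) → R.card = j + 1 →
        ∃ i, ¬ ∃ a : ℝ, ∀ b ∈ R, s b (w (g i)) = a * s b (w g0)) ∧
      (∀ R ⊆ B, R.card = j → ∃ i, ∃ b ∈ R, s b (w (g i)) ≠ 0) := by
  exact H76.WK.exists_seq hF hB hν hq g0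

/-- the set `G`: it splits all `(j+1)`-subsets of the support of `g0` and hits all elements outside the support. -/
theorem exists_G (hF : Fam w j κ f ν) (hB : Bas w B s) (hj : 1 ≤ j)
    (hν : 3 * (ν + 1) + 2 ≤ 2 * (κ + f + ν)) {q : ℕ}
    (hq : ((κ + j + 1).choose (j + 1) + (κ + j + 1).choose j) * 2 ^ q < 3 ^ q) (g0 : ι) :
    ∃ G : Finset ι, G.card ≤ q + j ∧ Disjoint G B ∧ g0 ∉ G ∧
      (∀ R ⊆ B, (∀ b ∈ R, s b (w g0) ≠ 0) → R.card = j + 1 →
        ∃ g ∈ G, ¬ ∃ a : ℝ, ∀ b ∈ R, s b (w g) = a * s b (w g0)) ∧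
      (∀ b ∈ B, s b (w g0) = 0 → ∃ g ∈ G, s b (w g) ≠ 0) := by
  exact H74.WK.exists_G_of_seq hF hB hj g0 (exists_seq hF hB hν hq g0)

end H81.WK
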