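import Pool.Agent.H15.FamSmall

/-!
# Walks of chambers (MP_19149c_co): `n(k, k+j) = 3k + j` for all `j` and large `k`.

Definitions: the hypotheses on a family (`Fam`) and the structure of a failing cell (`CellS`).

Proof (primal): `w : ι → E`, `dim E = ρ = κ+j+1`, `n = ρ + u`, `u = κ+f-1+ν`, no coloops, (FC)
`dim H ≤ κ+1 ⟹ #H ≤ ν + dim H`. Suppose `Bdd w κ`.
1. `(P,N)` signed vector, `C = P ∪ N` spanning, `|C| = ρ+1+δ`, `E0 = Cᶜ`: all partitions of `E0` may be added;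
   matroid union gives `E' ⊆ E0` with `r(P ∪ E') + r(N ∪ E') + |E0 \ E'| ≤ κ + ρ`; FC gives `CellS`.
2. (Walk) a chain of such cells cannot cross many elements.
3. (Choose, Path) a long chain of cells exists: `c_t = x + t y`.
-/

set_option linter.unusedSectionVars false

open Module Submodule H15

namespace H81.WK

variable {ι : Type*} [Fintype ι] {E : Type*} [AddCommGroup E] [Module ℝ E]
  [FiniteDimensional ℝ E]

/-- the hypotheses on a family. -/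
structure Fam (w : ι → E) (j κ f ν : ℕ) : Prop where
  dim : finrank ℝ E = κ + j + 1
  card : Fintype.card ι + 1 = finrank ℝ E + κ + f + ν
  col : ∀ i, sp w ({i}ᶜ) = ⊤
  fc : ∀ H : Submodule ℝ E, finrank ℝ H ≤ κ + 1 → {i | w i ∈ H}.ncard ≤ ν + finrank ℝ H

/-- the structure of a failing cell `(P, N)`, zero set `(P ∪ N)ᶜ`. -/
structure CellS (w : ι → E) (j κ f ν δ : ℕ) (P N : Set ι) (Φp Φn : Submodule ℝ E) : Prop where
  hP : ∀ i ∈ P, w i ∈ Φp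
  hN : ∀ i ∈ N, w i ∈ Φn
  dp : κ + 2 ≤ finrank ℝ Φp
  dn : κ + 2 ≤ finrank ℝ Φn
  sum : finrank ℝ Φp + finrank ℝ Φn ≤ 2 * κ + j + 1
  ep : {i | i ∉ P ∪ N ∧ w i ∉ Φp}.ncard + 3 ≤ j
  en : {i | i ∉ P ∪ N ∧ w i ∉ Φn}.ncard + 3 ≤ j
  ex : {i | i ∈ P ∧ w i ∈ Φn}.ncard + {i | i ∈ N ∧ w i ∈ Φp}.ncard + f ≤ 2 + δ
  cap : {i | w i ∈ Φp ∧ w i ∈ Φn}.ncard ≤ ν + κ

end H81.WK
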