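import Pool.Agent.H77.WK.Fd
import Pool.Agent.H7.WK.Rich

/-! Rich subspaces are fully divisible. -/

set_option linter.unusedSectionVars false

open Module Submodule H15

namespace H81.WK

variable {ι : Type*} [Fintype ι] {E : Type*} [AddCommGroup E] [Module ℝ E]
  [FiniteDimensional ℝ E]

/-- **FD**: if every proper subspace of `F` misses at least `2 (f+1)^2` elements of `F` then `F` is
fully divisible. -/
theorem fullyDiv_of_rich {v : ι → E} {F : Submodule ℝ E}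
    (h : ∀ G : Submodule ℝ E, G < F →
      {i | v i ∈ G}.ncard + 2 * (finrank ℝ F + 1) ^ 2 ≤ {i | v i ∈ F}.ncard) :
    FullyDiv v F :=
  H7.WK.fullyDiv_of_rich h

/-- **choice of F**. -/
theorem exists_fullyDiv {v : ι → E} (h0 : ∀ i, v i ≠ 0)
    (hnp : ∀ G : Submodule ℝ E, finrank ℝ G ≤ 1 → {i | v i ∈ G}.ncard ≤ 1)
    {r s : ℕ} {H : Submodule ℝ E} (hH : finrank ℝ H ≤ r)
    (hcnt : s + finrank ℝ H ≤ {i | v i ∈ H}.ncard) (hs : 2 * (r + 1) ^ 3 < s) :
    ∃ F : Submodule ℝ E, 2 ≤ finrank ℝ F ∧ finrank ℝ F ≤ r ∧ FullyDiv v F := by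
  exact exists_fullyDiv_of (fun F h => fullyDiv_of_rich h) h0 hnp hH hcnt hs

end H81.WK
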