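import Pool.Agent.H42.WK.Gen

/-! Positive generic coefficients. -/

namespace H81.WK

/-- positive generic coefficients. -/
theorem exists_pos_generic {κ' : Type*} [Finite κ'] {n : Type*} [Fintype n] [DecidableEq n]
    (l : κ' → ((n → ℝ) →ₗ[ℝ] ℝ)) (hl : ∀ k, l k ≠ 0) :
    ∃ α : n → ℝ, (∀ i, 0 < α i) ∧ ∀ k, l k α ≠ 0 := by
  have hsum : ∀ k, ∀ α : n → ℝ, l k α = ∑ g, α g * l k (Pi.single g 1) := by
    intro k α
    rw [LinearMap.pi_apply_eq_sum_univ (l k) α]
    refine Finset.sum_congr rfl fun g _ => ?_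
    rw [smul_eq_mul]
    congr 2
    ext i
    rw [Pi.single_apply]
    by_cases h : g = i
    · simp [h]
    · simp [h, Ne.symm h]
  obtain ⟨α, h1, h2⟩ := H42.WK.exists_generic (fun k g => l k (Pi.single g 1)) (by
    intro k h0
    apply hl k
    ext α
    rw [LinearMap.comp_apply, LinearMap.single_apply]
    exact congrFun h0 α)
  exact ⟨α, h1, fun k => by rw [hsum]; exact h2 k⟩

end H81.WK
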