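import Pool.Agent.H31.WKP.Path

/-! The chambers of a line `x + t y`. -/

namespace H81.WK

variable {ι : Type*} [Fintype ι]

open H31.WKP in
/-- **path**: `K` = support of `y`, at most `W` elements of `K` cross at the same time. There are times
`t 0, …, t L` such that no element of `K` vanishes at these times, consecutive chambers differ by at
most `W` elements, at least `c` elements cross in total, and both sides keep at least `M` elements of `K`. -/
theorem path (x y : ι → ℝ) (W c M : ℕ) (hW : ∀ t : ℝ, {i | y i ≠ 0 ∧ x i + t * y i = 0}.ncard ≤ W)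
    (hK : 2 * (M + c + 2 * W) + 2 ≤ {i | y i ≠ 0}.ncard) :
    ∃ (L : ℕ) (t : ℕ → ℝ),
      (∀ s ≤ L, ∀ i, y i ≠ 0 → x i + t s * y i ≠ 0) ∧
      (∀ s < L, {i | y i ≠ 0 ∧ 0 < x i + t (s + 1) * y i ∧ x i + t s * y i < 0}.ncard ≤ W ∧
        {i | y i ≠ 0 ∧ x i + t (s + 1) * y i < 0 ∧ 0 < x i + t s * y i}.ncard ≤ W) ∧
      c ≤ {i | 0 < x i + t 0 * y i ∧ x i + t L * y i < 0}.ncard +
        {i | x i + t 0 * y i < 0 ∧ 0 < x i + t L * y i}.ncard ∧
      (∀ s ≤ L, M ≤ {i | y i ≠ 0 ∧ 0 < x i + t s * y i}.ncard ∧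
        M ≤ {i | y i ≠ 0 ∧ x i + t s * y i < 0}.ncard) := by
  classical
  set K : Finset ι := Finset.univ.filter fun i => y i ≠ 0 with hKdef
  have hKm : ∀ i, i ∈ K ↔ y i ≠ 0 := by intro i; simp [hKdef]
  have hKc : {i | y i ≠ 0}.ncard = K.card := by
    rw [← Set.ncard_coe_finset]
    congr 1
    ext i
    rw [Finset.mem_coe, hKm]
    rfl
  have hW' : ∀ t : ℝ, (K.filter fun i => x i + t * y i = 0).card ≤ W := by
    intro t
    have h1 : (K.filter fun i => x i + t * y i = 0).card =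
        {i | y i ≠ 0 ∧ x i + t * y i = 0}.ncard := by
      rw [← Set.ncard_coe_finset]
      congr 1
      ext i
      rw [Finset.mem_coe, Finset.mem_filter, hKm]
      rfl
    rw [h1]
    exact hW t
  rw [hKc] at hK
  obtain ⟨L, u, h1, h2, h3, h4⟩ := path_times x y K hKm W c M hW' (by omega)
  refine ⟨L, u, ?_, ?_, ?_, ?_⟩
  · intro s _ i hi
    exact h1 s i ((hKm i).2 hi)
  · intro s _
    constructor
    · refine le_trans ?_ (h2 s)
      rw [← Set.ncard_coe_finset]
      apply Set.ncard_le_ncard _ (Finset.finite_toSet _)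
      intro i hi
      rw [Finset.mem_coe, mem_DD]
      exact Or.inr ⟨hi.2.2, hi.2.1⟩
    · refine le_trans ?_ (h2 s)
      rw [← Set.ncard_coe_finset]
      apply Set.ncard_le_ncard _ (Finset.finite_toSet _)
      intro i hi
      rw [Finset.mem_coe, mem_DD]
      exact Or.inl ⟨hi.2.2, hi.2.1⟩
  · rw [card_DD, ← Set.ncard_coe_finset, ← Set.ncard_coe_finset] at h4
    have e1 : ((PP x y (u 0) ∩ NN x y (u L) : Finset ι) : Set ι) =
        {i | 0 < x i + u 0 * y i ∧ x i + u L * y i < 0} := by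
      ext i
      rw [Finset.mem_coe, Finset.mem_inter, mem_PP, mem_NN]
      rfl
    have e2 : ((NN x y (u 0) ∩ PP x y (u L) : Finset ι) : Set ι) =
        {i | x i + u 0 * y i < 0 ∧ 0 < x i + u L * y i} := by
      ext i
      rw [Finset.mem_coe, Finset.mem_inter, mem_PP, mem_NN]
      rfl
    rw [e1, e2] at h4
    exact h4
  · intro s hs
    obtain ⟨g1, g2⟩ := h3 s hs
    rw [← Set.ncard_coe_finset] at g1 g2
    have e1 : ((PP x y (u s) ∩ K : Finset ι) : Set ι) = {i | y i ≠ 0 ∧ 0 < x i + u s * y i} := by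
      ext i
      rw [Finset.mem_coe, Finset.mem_inter, mem_PP, hKm]
      exact and_comm
    have e2 : ((NN x y (u s) ∩ K : Finset ι) : Set ι) = {i | y i ≠ 0 ∧ x i + u s * y i < 0} := by
      ext i
      rw [Finset.mem_coe, Finset.mem_inter, mem_NN, hKm]
      exact and_comm
    rw [e1] at g1
    rw [e2] at g2
    exact ⟨g1, g2⟩

end H81.WK
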