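import Pool.Agent.H81.WK.Defs
import Pool.Agent.H42.WK.WalkF

/-! A chain of failing cells crosses few elements. -/

set_option linter.unusedSectionVars false

open Module Submodule H15

namespace H81.WK

variable {ι : Type*} [Fintype ι] {E : Type*} [AddCommGroup E] [Module ℝ E]
  [FiniteDimensional ℝ E]

/-- **walk**: with `g = δ + W + j + 2`, at most `3(2+δ) + 2 j (1+g)` elements go from `P 0` to
`N L`. (The same for `N 0`, `P L` by symmetry: apply it to `N`, `P`, `CellS.symm`.) -/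
theorem walk {w : ι → E} {j κ f ν δ W : ℕ} (hF : Fam w j κ f ν) {L : ℕ} {P N : ℕ → Set ι}
    {C : Set ι} (hC : C.ncard = κ + j + 2 + δ) (hPN : ∀ i ≤ L, P i ∪ N i = C)
    (hd : ∀ i ≤ L, Disjoint (P i) (N i)) {Φp Φn : ℕ → Submodule ℝ E}
    (hcell : ∀ i ≤ L, CellS w j κ f ν δ (P i) (N i) (Φp i) (Φn i))
    (hsP : ∀ i < L, (P (i + 1) \ P i).ncard ≤ W) (hsN : ∀ i < L, (N (i + 1) \ N i).ncard ≤ W)
    (hMP : 3 + δ + j + j * (δ + W + j + 2) < (P 0).ncard)
    (hMN : 3 + δ + j + j * (δ + W + j + 2) < (N 0).ncard) :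
    (P 0 ∩ N L).ncard ≤ 3 * (2 + δ) + 2 * j * (1 + (δ + W + j + 2)) :=
  H42.WK.walkF hF hC hPN hd hcell hsN hMP

theorem CellS.symm {w : ι → E} {j κ f ν δ : ℕ} {P N : Set ι} {Φp Φn : Submodule ℝ E}
    (h : CellS w j κ f ν δ P N Φp Φn) : CellS w j κ f ν δ N P Φn Φp :=
  H42.WK.cellS_symm h

end H81.WK
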