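import Pool.Agent.H81.WK.Cell
import Pool.Agent.H81.WK.Walk
import Pool.Agent.H81.WK.Path
import Pool.Agent.H81.WK.Choose
import Pool.Agent.H81.WK.FD
import Pool.Agent.H81.WK.Quot

/-! Assembly: families, then points. -/

set_option linter.unusedSectionVars false

open Module Submodule H15

namespace H81.WK

variable {ι : Type*} [Fintype ι] {E : Type*} [AddCommGroup E] [Module ℝ E]
  [FiniteDimensional ℝ E]

/-- the bound on the size of the walk (`δ ≤ D`). -/
def bnd (j D : ℕ) : ℕ := 100 * (j + 1) ^ 2 * (D + j + 1)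

theorem bnd_arith {j D δ σ κ : ℕ} (hδ : δ ≤ D) (hσ : κ + 1 ≤ 3 * j * σ)
    (hbig : 3 * j * bnd j D ≤ κ) :
    2 * ((4 + δ + j + j * (δ + (j + 1) + j + 2)) +
      (2 * (3 * (2 + δ) + 2 * j * (1 + (δ + (j + 1) + j + 2))) + 1) + 2 * (j + 1)) + 2 ≤ σ := by
  have h1 : bnd j D < σ := by
    by_contra hcon
    push Not at hcon
    have := Nat.mul_le_mul_left (3 * j) hcon
    omega
  refine le_trans ?_ h1.le
  unfold bnd
  have h2 : j * δ ≤ j * D := Nat.mul_le_mul_left _ hδ
  nlinarith [Nat.zero_le (j * D), Nat.zero_le (j * j), Nat.zero_le (j * j * D),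
    Nat.zero_le (j * j * j), Nat.zero_le D, Nat.zero_le j]

/-- the main theorem for families with `f ≥ 2`, or `f = 0` and no rich low rank flat. -/
theorem not_bdd {w : ι → E} {j κ f ν q : ℕ} (hF : Fam w j κ f ν) (hj : 1 ≤ j)
    (hν : 3 * (ν + 1) + 2 ≤ 2 * (κ + f + ν))
    (hq : ((κ + j + 1).choose (j + 1) + (κ + j + 1).choose j) * 2 ^ q < 3 ^ q)
    (hbig : 3 * j * bnd j (q + j) ≤ κ)
    (hN : 2 ≤ f ∨ (f = 0 ∧ ∀ H : Submodule ℝ E, finrank ℝ H ≤ 3 + (q + j) →
      {i | w i ∈ H}.ncard + 2 + (q + j) < finrank ℝ H + ν)) :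
    ¬ Bdd w κ := by
  classical
  intro hb
  obtain ⟨C, x, y, δ, hδ, hC, hCs, hx, hy, hout, hin, hW, hσ, hind⟩ := choose_line hF hj hν hq
  have har := bnd_arith hδ hσ hbig
  set M := 4 + δ + j + j * (δ + (j + 1) + j + 2) with hM
  set c := 2 * (3 * (2 + δ) + 2 * j * (1 + (δ + (j + 1) + j + 2))) + 1 with hc
  obtain ⟨L, t, ht1, ht2, ht3, ht4⟩ := path x y (j + 1) c M hW har
  let P : ℕ → Set ι := fun s => {i | 0 < x i + t s * y i}
  let N : ℕ → Set ι := fun s => {i | x i + t s * y i < 0}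
  have hdisj : ∀ s, Disjoint (P s) (N s) := fun s => by
    rw [Set.disjoint_left]
    intro i hi hi'
    exact lt_asymm (show (0 : ℝ) < _ from hi) hi'
  have hnz : ∀ s ≤ L, ∀ i ∈ C, x i + t s * y i ≠ 0 := by
    intro s hs i hi
    by_cases hyi : y i = 0
    · rw [hyi, mul_zero, add_zero]; exact hin i hi hyi
    · exact ht1 s hs i hyi
  have hzero : ∀ s, ∀ i, i ∉ C → x i + t s * y i = 0 := by
    intro s i hi
    rw [(hout i hi).1, (hout i hi).2, mul_zero, add_zero]
  have hPN : ∀ s ≤ L, P s ∪ N s = C := by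
    intro s hs
    ext i
    constructor
    · rintro (hi | hi)
      · by_contra hiC
        exact absurd (show (0 : ℝ) < x i + t s * y i from hi) (by rw [hzero s i hiC]; exact lt_irrefl _)
      · by_contra hiC
        exact absurd (show x i + t s * y i < (0 : ℝ) from hi) (by rw [hzero s i hiC]; exact lt_irrefl _)
    · intro hi
      rcases lt_or_gt_of_ne (hnz s hs i hi) with h | h
      · exact Or.inr h
      · exact Or.inl h
  have hsv : ∀ s, SVec w (P s) (N s) := by
    intro s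
    refine ⟨fun i => x i + t s * y i, ?_, fun i => Iff.rfl, fun i => Iff.rfl⟩
    have : ∑ i, (x i + t s * y i) • w i = ∑ i, x i • w i + t s • ∑ i, y i • w i := by
      rw [Finset.smul_sum, ← Finset.sum_add_distrib]
      refine Finset.sum_congr rfl fun i _ => ?_
      rw [add_smul, mul_smul]
    rw [this, hx, hy, smul_zero, add_zero]
  have hMP : ∀ s ≤ L, M ≤ (P s).ncard := fun s hs =>
    (ht4 s hs).1.trans (Set.ncard_le_ncard (fun i hi => hi.2) (Set.toFinite _))
  have hMN : ∀ s ≤ L, M ≤ (N s).ncard := fun s hs =>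
    (ht4 s hs).2.trans (Set.ncard_le_ncard (fun i hi => hi.2) (Set.toFinite _))
  have hcell : ∀ s, s ≤ L → ∃ Φp Φn : Submodule ℝ E, CellS w j κ f ν δ (P s) (N s) Φp Φn := by
    intro s hs
    have h1 := hPN s hs
    have h2 := hMP s hs
    have h3 := hMN s hs
    refine cell hF hb (hsv s) (by rw [h1]; exact hCs) (by rw [h1]; exact hC) (by omega) (by omega) ?_
    rcases hN with hf | ⟨hf, hH⟩
    · left
      refine ⟨hf, hind (t s) ?_⟩
      have h4 := (ht4 s hs).1
      have h5 : 0 < {i | y i ≠ 0 ∧ 0 < x i + t s * y i}.ncard := by omega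
      obtain ⟨i, hi⟩ := (Set.ncard_pos (Set.toFinite _)).1 h5
      exact ⟨i, hi⟩
    · right
      refine ⟨hf, fun H hHr => ?_⟩
      have := hH H (by omega)
      omega
  choose! Φp Φn hΦ using hcell
  have hmv : ∀ s < L, ∀ i, (0 < x i + t (s + 1) * y i → ¬ 0 < x i + t s * y i →
      y i ≠ 0 ∧ x i + t s * y i < 0) ∧ (x i + t (s + 1) * y i < 0 → ¬ x i + t s * y i < 0 →
      y i ≠ 0 ∧ 0 < x i + t s * y i) := by
    intro s hs i
    constructor
    · intro h1 h2
      have hiC : i ∈ C := by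
        by_contra hiC
        rw [hzero _ i hiC] at h1
        exact lt_irrefl _ h1
      refine ⟨?_, lt_of_le_of_ne (not_lt.1 h2) (hnz s hs.le i hiC)⟩
      intro hy0
      rw [hy0, mul_zero] at h1 h2
      exact h2 h1
    · intro h1 h2
      have hiC : i ∈ C := by
        by_contra hiC
        rw [hzero _ i hiC] at h1
        exact lt_irrefl _ h1
      refine ⟨?_, lt_of_le_of_ne (not_lt.1 h2) (hnz s hs.le i hiC).symm⟩
      intro hy0
      rw [hy0, mul_zero] at h1 h2
      exact h2 h1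
  have hsP : ∀ s < L, (P (s + 1) \ P s).ncard ≤ j + 1 := by
    intro s hs
    refine le_trans (Set.ncard_le_ncard ?_ (Set.toFinite _)) (ht2 s hs).1
    rintro i ⟨h1, h2⟩
    have h3 := (hmv s hs i).1 h1 h2
    exact ⟨h3.1, h1, h3.2⟩
  have hsN : ∀ s < L, (N (s + 1) \ N s).ncard ≤ j + 1 := by
    intro s hs
    refine le_trans (Set.ncard_le_ncard ?_ (Set.toFinite _)) (ht2 s hs).2
    rintro i ⟨h1, h2⟩
    have h3 := (hmv s hs i).2 h1 h2
    exact ⟨h3.1, h1, h3.2⟩
  have hC' : C.ncard = κ + j + 2 + δ := hC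
  have hP0 := hMP 0 (Nat.zero_le _)
  have hN0 := hMN 0 (Nat.zero_le _)
  have hw1 := walk hF hC' hPN (fun s _ => hdisj s) hΦ hsP hsN (by omega) (by omega)
  have hw2 := walk hF hC' (P := N) (N := P) (fun s hs => by rw [Set.union_comm]; exact hPN s hs)
    (fun s _ => (hdisj s).symm) (fun s hs => (hΦ s hs).symm) hsN hsP (by omega) (by omega)
  have e1 : P 0 ∩ N L = {i | 0 < x i + t 0 * y i ∧ x i + t L * y i < 0} := rfl
  have e2 : N 0 ∩ P L = {i | x i + t 0 * y i < 0 ∧ 0 < x i + t L * y i} := rfl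
  rw [e1] at hw1
  rw [e2] at hw2
  omega

/-- simple family. -/
theorem simple_not_bdd {v : ι → E} {j k q : ℕ} (hF : Fam v j k 0 k) (hj : 1 ≤ j) (h0 : ∀ i, v i ≠ 0)
    (hnp : ∀ G : Submodule ℝ E, finrank ℝ G ≤ 1 → {i | v i ∈ G}.ncard ≤ 1)
    (hq : ((k + j + 1).choose (j + 1) + (k + j + 1).choose j) * 2 ^ q < 3 ^ q)
    (hbig : 3 * j * bnd j (q + j) + 2 * (q + j + 4) ^ 3 + 2 * (q + j) + 20 ≤ k) :
    ¬ Bdd v k := by
  intro hb
  by_cases hH : ∃ H : Submodule ℝ E, finrank ℝ H ≤ 3 + (q + j) ∧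
      finrank ℝ H + k ≤ {i | v i ∈ H}.ncard + 2 + (q + j)
  · obtain ⟨H, hHr, hHc⟩ := hH
    have e : q + j + 4 = 3 + (q + j) + 1 := by omega
    rw [e] at hbig
    obtain ⟨F, hF2, hFr, hFd⟩ := exists_fullyDiv h0 hnp (r := 3 + (q + j))
      (s := k - 2 - (q + j)) hHr (by omega) (by omega)
    have hT := quot_fam hF F (by omega)
    have hm : ∀ a, (k - finrank ℝ F + j + 1).choose a ≤ (k + j + 1).choose a := fun a =>
      Nat.choose_le_choose a (by omega)
    refine not_bdd (q := q) hT hj (by omega) ?_ (by omega) (Or.inl hF2) ?_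
    · refine lt_of_le_of_lt (Nat.mul_le_mul_right _ ?_) hq
      exact Nat.add_le_add (hm _) (hm _)
    · intro X' Y' h'
      have := hFd.bdd hb h'
      omega
  · push Not at hH
    refine not_bdd (q := q) hF hj (by omega) hq (by omega) (Or.inr ⟨rfl, fun H hHr => ?_⟩) hb
    have := hH H hHr
    omega

end H81.WK
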