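import Pool.Agent.H81.WK.Main
import Pool.Agent.H9.WK.Pts
import Pool.Agent.H30.DV.Assemble
import Pool.Agent.H30.WK.Pts

/-! From simple spanning families without coloops to all families, and to points. -/

set_option linter.unusedSectionVars false

open Module Submodule H15 H30.DV

namespace H81.WK

/-- general family: spanning and coloops by induction on `j`. -/
theorem good_not_bdd : ∀ j k q : ℕ,
    ((k + j + 1).choose (j + 1) + (k + j + 1).choose j) * 2 ^ q < 3 ^ q →
    3 * j * bnd j (q + j) + 2 * (q + j + 4) ^ 3 + 2 * (q + j) + 20 ≤ k →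
    ∀ (ι : Type) [Fintype ι] (E : Type) [AddCommGroup E] [Module ℝ E] [FiniteDimensional ℝ E]
      (v : ι → E), Good k v → finrank ℝ E ≤ k + j + 1 → 3 * k + j ≤ Fintype.card ι → ¬ Bdd v k :=
  H9.WK.good_not_bdd

/-- points. -/
theorem divisible_pts {k j : ℕ} (hkj : 2 ≤ k + j)
    (H : ∀ (ι : Type) [Fintype ι] (E : Type) [AddCommGroup E] [Module ℝ E] [FiniteDimensional ℝ E]
      (v : ι → E), Good k v → finrank ℝ E ≤ k + j + 1 → 3 * k + j ≤ Fintype.card ι → ¬ Bdd v k)
    (S : Finset (EuclideanSpace ℝ (Fin (k + j)))) (hS : FlatCondition k S)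
    (hcard : 3 * k + j ≤ S.card) : Divisible k S :=
  H30.WK.divisible_pts hkj H S hS hcard

end H81.WK
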