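import Pool.Agent.H81.WK.Defs
import Pool.Agent.H9.WK.Union

/-! Matroid union, rank form, relative to two subspaces. -/

set_option linter.unusedSectionVars false

open Module Submodule H15

namespace H81.WK

variable {ι : Type*} [Fintype ι] {E : Type*} [AddCommGroup E] [Module ℝ E]
  [FiniteDimensional ℝ E]

/-- matroid union, rank form. -/
theorem union_rank [DecidableEq ι] (v : ι → E) (A B : Submodule ℝ E) (I : Finset ι) (t : ℕ)
    (h : ∀ X : Finset ι, X ⊆ I → t ≤ finrank ℝ (A ⊔ sp v X : Submodule ℝ E) +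
      finrank ℝ (B ⊔ sp v X : Submodule ℝ E) + (I \ X).card) :
    ∃ X Y : Finset ι, Disjoint X Y ∧ X ∪ Y = I ∧
      t ≤ finrank ℝ (A ⊔ sp v X : Submodule ℝ E) + finrank ℝ (B ⊔ sp v Y : Submodule ℝ E) := by
  obtain ⟨X, Y, Z, h1, h2, h3, h4⟩ := H9.WK.union_rank v I.card I rfl A B
  exact ⟨X, Y, h1, h2, (h Z h3).trans h4⟩

end H81.WK
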